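import Pool.Agent.L5helper73.ZO.Sp2

/-!
# Continuum many independent automorphisms of the field of complex numbers
-/

set_option autoImplicit false
set_option linter.unusedSimpArgs false

namespace Pool.Agent.L5helper73.ZO

open Polynomial

section general

variable {Ω : Type*} [Field Ω] [CharZero Ω] {ι : Type*}

theorem isAlg_of {b : ι → Ω} {J : Set ι} {q : Ω} (R : Polynomial Ω) (hR : R ≠ 0)
    (hc : ∀ n, R.coeff n ∈ Bs b J) (h0 : R.eval q = 0) : IsAlgebraic (Bs b J) q := by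
  have h1 : R ∈ Polynomial.lifts (algebraMap (Bs b J) Ω) := by
    rw [Polynomial.lifts_iff_coeff_lifts]
    intro n
    exact ⟨⟨_, hc n⟩, rfl⟩
  obtain ⟨P, hP⟩ := (Polynomial.mem_lifts _).1 h1
  refine ⟨P, ?_, ?_⟩
  · rintro rfl
    rw [Polynomial.map_zero] at hP
    exact hR hP.symm
  · rw [aeval_def, ← Polynomial.eval_map, hP, h0]

theorem isAlg_mono {b : ι → Ω} {J J' : Set ι} (hJ : J ⊆ J') {q : Ω} (h : IsAlgebraic (Bs b J) q) :
    IsAlgebraic (Bs b J') q := by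
  obtain ⟨P, hP, h0⟩ := h
  refine isAlg_of (P.map (algebraMap (Bs b J) Ω)) ?_ (fun n => ?_) ?_
  · rw [Ne, Polynomial.map_eq_zero_iff (FaithfulSMul.algebraMap_injective _ _)]
    exact hP
  · rw [coeff_map]
    exact Bs_mono hJ (P.coeff n).2
  · rw [Polynomial.eval_map]
    exact h0

theorem exists_support {b : ι → Ω} (hb : IsTranscendenceBasis ℚ b) (q : Ω) :
    ∃ J : Finset ι, IsAlgebraic (Bs b ↑J) q := by
  classical
  obtain ⟨P, hP, h0, -⟩ := exists_poly hb ∅ q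
  have hex : ∀ n, ∃ p : MvPolynomial ι ℚ, MvPolynomial.aeval b p = (P.coeff n : Ω) := fun n => by
    obtain ⟨p, hp, -⟩ := mem_Bs (P.coeff n).2
    exact ⟨p, hp⟩
  choose p hp using hex
  refine ⟨P.support.biUnion fun n => (p n).vars,
    isAlg_of (P.map (Bs b Set.univ).val.toRingHom) ?_ (fun n => ?_) ?_⟩
  · rw [Ne, Polynomial.map_eq_zero_iff Subtype.val_injective]
    exact hP
  · rw [coeff_map]
    by_cases hn : n ∈ P.support
    · change ((P.coeff n : Bs b Set.univ) : Ω) ∈ _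
      rw [← hp]
      refine aeval_mem_Bs b ?_
      exact Finset.coe_subset.2 (Finset.subset_biUnion_of_mem (fun n => (p n).vars) hn)
    · rw [Polynomial.notMem_support_iff.1 hn, map_zero]
      exact Subalgebra.zero_mem _
  · rw [Polynomial.eval_map]
    exact h0

theorem isAlg_adjoin {b : ι → Ω} {J : Set ι} {S : Set Ω} (h : ∀ q ∈ S, IsAlgebraic (Bs b J) q)
    {a : Ω} (ha : a ∈ Algebra.adjoin ℚ S) : IsAlgebraic (Bs b J) a := by
  refine Algebra.adjoin_induction h (fun r => ?_) (fun x y _ _ hx hy => hx.add hy)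
    (fun x y _ _ hx hy => hx.mul hy) ha
  have := isAlgebraic_algebraMap (R := Bs b J) (A := Ω) (algebraMap ℚ (Bs b J) r)
  exact this

theorem map_Bs {b : ι → Ω} {J : Set ι} {e : ι → ι} (σ : Ω →+* Ω) (h : ∀ i, σ (b i) = b (e i))
    {y : Ω} (hy : y ∈ Bs b J) : σ y ∈ Bs b (e '' J) := by
  refine Algebra.adjoin_induction (fun x hx => ?_) (fun r => ?_)
    (fun x y _ _ hx hy => ?_) (fun x y _ _ hx hy => ?_) hy
  · obtain ⟨i, hi, rfl⟩ := hx
    rw [h]
    exact Algebra.subset_adjoin ⟨e i, ⟨i, hi, rfl⟩, rfl⟩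
  · have : σ (algebraMap ℚ Ω r) = algebraMap ℚ Ω r := by simp
    rw [this]
    exact Subalgebra.algebraMap_mem _ r
  · rw [map_add]
    exact Subalgebra.add_mem _ hx hy
  · rw [map_mul]
    exact Subalgebra.mul_mem _ hx hy

theorem isAlg_map {b : ι → Ω} {J : Set ι} {e : ι → ι} (σ : Ω →+* Ω) (h : ∀ i, σ (b i) = b (e i))
    {q : Ω} (hq : IsAlgebraic (Bs b J) q) : IsAlgebraic (Bs b (e '' J)) (σ q) := by
  obtain ⟨P, hP, h0⟩ := hq
  refine isAlg_of ((P.map (algebraMap (Bs b J) Ω)).map σ) ?_ (fun n => ?_) ?_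
  · rw [Ne, Polynomial.map_eq_zero_iff σ.injective,
      Polynomial.map_eq_zero_iff (FaithfulSMul.algebraMap_injective _ _)]
    exact hP
  · rw [coeff_map, coeff_map]
    exact map_Bs σ h (P.coeff n).2
  · rw [Polynomial.eval_map, Polynomial.eval₂_hom, Polynomial.eval_map]
    have : eval₂ (algebraMap (Bs b J) Ω) q P = 0 := h0
    rw [this, map_zero]

theorem exists_aut [IsAlgClosed Ω] {b : ι → Ω} (hb : IsTranscendenceBasis ℚ b) (e : ι ≃ ι) :
    ∃ σ : Ω ≃+* Ω, ∀ i, σ (b i) = b (e i) := by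
  have := IsAlgClosed.isAlgClosure_of_transcendence_basis b hb
  let E : Algebra.adjoin ℚ (Set.range b) ≃+* Algebra.adjoin ℚ (Set.range b) :=
    (hb.1.aevalEquiv.symm.toRingEquiv.trans (MvPolynomial.renameEquiv ℚ e).toRingEquiv).trans
      hb.1.aevalEquiv.toRingEquiv
  refine ⟨IsAlgClosure.equivOfEquiv Ω Ω E, fun i => ?_⟩
  have h1 : b i = algebraMap (Algebra.adjoin ℚ (Set.range b)) Ω
      (hb.1.aevalEquiv (MvPolynomial.X i)) := by
    change _ = ((hb.1.aevalEquiv (MvPolynomial.X i) : Algebra.adjoin ℚ (Set.range b)) : Ω)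
    rw [hb.1.aevalEquiv_apply_coe, MvPolynomial.aeval_X]
  rw [h1, IsAlgClosure.equivOfEquiv_algebraMap]
  have h2 : E (hb.1.aevalEquiv (MvPolynomial.X i)) = hb.1.aevalEquiv (MvPolynomial.X (e i)) := by
    change hb.1.aevalEquiv (MvPolynomial.renameEquiv ℚ e (hb.1.aevalEquiv.symm
      (hb.1.aevalEquiv (MvPolynomial.X i)))) = _
    rw [AlgEquiv.symm_apply_apply]
    simp
  rw [h2]
  change ((hb.1.aevalEquiv (MvPolynomial.X (e i)) : Algebra.adjoin ℚ (Set.range b)) : Ω) = _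
  rw [hb.1.aevalEquiv_apply_coe, MvPolynomial.aeval_X]

end general

/-- a transcendence basis of the field of complex numbers indexed by the real numbers -/
theorem exists_basis : ∃ b : ℝ → ℂ, IsTranscendenceBasis ℚ b := by
  obtain ⟨s, hs⟩ := exists_isTranscendenceBasis ℚ ℂ
  have h1 : Cardinal.mk ℂ = Cardinal.mk s :=
    IsAlgClosed.cardinal_eq_cardinal_transcendence_basis_of_aleph0_lt' _ hs (by simp) (by
      rw [Cardinal.mk_complex]
      exact Cardinal.aleph0_lt_continuum)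
  have h2 : Cardinal.mk ℝ = Cardinal.mk s := by
    rw [← h1, Cardinal.mk_complex, Cardinal.mk_real]
  obtain ⟨e⟩ := Cardinal.eq.1 h2
  exact ⟨_, (isTranscendenceBasis_equiv e).2 hs⟩

/-- disjoint translates of a finite set -/
theorem exists_translates (J : Finset ℝ) : ∃ t : ℝ → ℝ, ∀ x y, x ≠ y →
    Disjoint ((fun i => i + t x) '' (J : Set ℝ)) ((fun i => i + t y) '' (J : Set ℝ)) := by
  classical
  let D : Finset ℝ := ((J ×ˢ J).image fun p => |p.1 - p.2|).filter fun d => 0 < d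
  obtain ⟨ε, hε, hD⟩ : ∃ ε : ℝ, 0 < ε ∧ ∀ d ∈ D, ε ≤ d := by
    rcases D.eq_empty_or_nonempty with h | h
    · exact ⟨1, one_pos, by simp [h]⟩
    · refine ⟨D.min' h, ?_, fun d hd => D.min'_le d hd⟩
      exact (Finset.mem_filter.1 (D.min'_mem h)).2
  have h1 : Cardinal.mk ℝ = Cardinal.mk (Set.Ioo (0 : ℝ) ε) := by
    rw [Cardinal.mk_Ioo_real hε, Cardinal.mk_real]
  obtain ⟨e⟩ := Cardinal.eq.1 h1
  refine ⟨fun x => (e x : ℝ), fun x y hxy => ?_⟩
  rw [Set.disjoint_left]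
  rintro _ ⟨i, hi, rfl⟩ ⟨k, hk, hik⟩
  simp only at hik
  have h2 : k - i = e x - e y := by linarith
  have h3 : (e x : ℝ) ≠ e y := fun h => hxy (e.injective (Subtype.ext h))
  have h4 : 0 < |k - i| := by
    rw [h2]
    exact abs_pos.2 (sub_ne_zero.2 h3)
  have h5 : |k - i| ∈ D := Finset.mem_filter.2
    ⟨Finset.mem_image.2 ⟨(k, i), Finset.mem_product.2 ⟨hk, hi⟩, rfl⟩, h4⟩
  have h6 := hD _ h5
  rw [h2] at h6
  have h7 := (e x).2
  have h8 := (e y).2
  rw [Set.mem_Ioo] at h7 h8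
  have : |(e x : ℝ) - e y| < ε := by
    rw [abs_lt]
    constructor <;> linarith
  linarith

/-- For every finite set `S` of complex numbers there are a family `σ x`, `x ∈ ℝ`, of automorphisms and
finite sets of complex numbers such that each time finitely many of the finitely generated rings `σ x (S)`
can be specialized, except for one of them. -/
theorem exists_family {S : Set ℂ} (hS : S.Finite) : ∃ σ : ℝ → (ℂ ≃+* ℂ),
    ∀ (y : ℝ) (Q : Set ℂ), Q.Finite → ∃ τ : Algebra.adjoin ℚ Q →+* ℂ,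
      (∀ x, x ≠ y → ∀ s ∈ S, ∀ h : σ x s ∈ Q,
        IsAlgebraic ℚ (τ ⟨σ x s, Algebra.subset_adjoin h⟩)) ∧
      (∀ (a : ℂ) (_ : a ∈ Algebra.adjoin ℚ S) (h : σ y a ∈ Algebra.adjoin ℚ Q),
        τ ⟨σ y a, h⟩ = 0 → a = 0) := by
  classical
  obtain ⟨b, hb⟩ := exists_basis
  choose J hJ using exists_support hb
  let J0 : Finset ℝ := hS.toFinset.biUnion J
  have hJ0 : ∀ s ∈ S, IsAlgebraic (Bs b ↑J0) s := fun s hs =>
    isAlg_mono (Finset.coe_subset.2 (Finset.subset_biUnion_of_mem J (hS.mem_toFinset.2 hs))) (hJ s)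
  obtain ⟨t, ht⟩ := exists_translates J0
  have haut : ∀ x : ℝ, ∃ σ : ℂ ≃+* ℂ, ∀ i, σ (b i) = b (i + t x) := fun x =>
    exists_aut hb (Equiv.addRight (t x))
  choose σ hσ using haut
  refine ⟨σ, fun y Q hQ => ?_⟩
  obtain ⟨τ, h1, h2⟩ := exists_spec hb ((fun i => i + t y) '' (J0 : Set ℝ)) hQ
  refine ⟨τ, fun x hx s hs h => h1 _ h ?_, fun a ha h h0 => ?_⟩
  · have h3 := isAlg_map (σ x).toRingHom (e := fun i => i + t x) (hσ x) (hJ0 s hs)
    refine isAlg_mono (fun i hi hi' => ?_) h3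
    exact Set.disjoint_left.1 (ht x y hx) hi hi'
  · have h3 := isAlg_map (σ y).toRingHom (e := fun i => i + t y) (hσ y) (isAlg_adjoin hJ0 ha)
    have h4 := h2 ⟨σ y a, h⟩ h3 h0
    have h5 : σ y a = 0 := congrArg Subtype.val h4
    exact (map_eq_zero_iff _ (σ y).injective).1 h5

end Pool.Agent.L5helper73.ZO
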