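import Pool.Agent.L5helper73.ZO.Aut
import Pool.Agent.L5helper73.PC.Fin

/-!
# The zero-one law for the motivic cohomology of the complex numbers
-/

set_option autoImplicit false

open CategoryTheory AlgebraicGeometry Opposite Pool.Agent.L5helper68 Pool.Agent.L5helper66
  Pool.Agent.L5helper73.PC
open Pool.Agent.L5helper68.BS hiding Zero

namespace Pool.Agent.L5helper73.ZO

variable {H : ℤ → ℤ → Scheme.{0}ᵒᵖ ⥤ AddCommGrpCat.{0}}

variable (H) in
/-- A class of a finitely generated subring `A` of a field `F` of characteristic zero which becomes zero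
on `Spec F` is already zero on `Spec B` for a larger finitely generated subring `B`. -/
def SpreadsZero : Prop :=
  ∀ (k j : ℤ) (F A : Type) [Field F] [CommRing A] [Algebra ℚ A] (φ : A →+* F)
    (w : (H k j).obj (op (Sp A))), Algebra.FiniteType ℚ A → Function.Injective φ →
      (H k j).map (sm φ).op w = 0 →
        ∃ (B : Type) (_ : CommRing B) (_ : Algebra ℚ B) (α : A →+* B) (β : B →+* F),
          Algebra.FiniteType ℚ B ∧ Function.Injective β ∧ β.comp α = φ ∧
            (H k j).map (sm α).op w = 0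

variable (H) in
/-- Borel's theorem for all number fields -/
def BorelVanishing : Prop :=
  ∀ k j : ℤ, k ≤ 0 → 0 < j → ∀ (K : Type) [Field K] [NumberField K], BS.Zero H k j (Sp K)

variable (H) in
/-- the map on cohomology induced by a homomorphism of rings -/
noncomputable def push (k j : ℤ) {A B : Type} [CommRing A] [CommRing B] (φ : A →+* B) :
    (H k j).obj (op (Sp A)) →+ (H k j).obj (op (Sp B)) := ((H k j).map (sm φ).op).hom

theorem push_comp {A B C : Type} [CommRing A] [CommRing B] [CommRing C] {k j : ℤ} (φ : A →+* B)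
    (ψ : B →+* C) (w : (H k j).obj (op (Sp A))) :
    push H k j (ψ.comp φ) w = push H k j ψ (push H k j φ w) := by
  have e : sm (ψ.comp φ) = sm ψ ≫ sm φ := Spec.map_comp _ _
  unfold push
  rw [e, op_comp, (H k j).map_comp]
  rfl

theorem push_algebraic (hb : BorelVanishing H) {k j : ℤ} (hk : k ≤ 0) (hj : 0 < j) {S : Set ℂ}
    (hS : S.Finite) (χ : Algebra.adjoin ℚ S →+* ℂ)
    (hχ : ∀ s (hs : s ∈ S), IsAlgebraic ℚ (χ ⟨s, Algebra.subset_adjoin hs⟩))
    (w : (H k j).obj (op (Sp (Algebra.adjoin ℚ S)))) : push H k j χ w = 0 := by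
  let f : S → ℂ := fun s => χ ⟨s, Algebra.subset_adjoin s.2⟩
  let K : IntermediateField ℚ ℂ := IntermediateField.adjoin ℚ (Set.range f)
  have hfin : Finite S := hS
  have h1 : FiniteDimensional ℚ K := by
    have : Finite (Set.range f) := Set.finite_range f
    refine IntermediateField.finiteDimensional_adjoin fun x hx => ?_
    obtain ⟨s, rfl⟩ := hx
    exact (hχ s s.2).isIntegral
  have h2 : NumberField K := ⟨⟩
  have h3 : ∀ a : Algebra.adjoin ℚ S, χ a ∈ K := by
    rintro ⟨a, ha⟩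
    refine Algebra.adjoin_induction (p := fun a ha => χ ⟨a, ha⟩ ∈ K) (fun x hx => ?_) (fun r => ?_)
      (fun x y hx hy h h' => ?_) (fun x y hx hy h h' => ?_) ha
    · exact IntermediateField.subset_adjoin ℚ _ ⟨⟨x, hx⟩, rfl⟩
    · have : χ (algebraMap ℚ (Algebra.adjoin ℚ S) r) = algebraMap ℚ ℂ r := by simp
      have h4 : χ ⟨algebraMap ℚ ℂ r, Subalgebra.algebraMap_mem _ r⟩ = algebraMap ℚ ℂ r := this
      rw [h4]
      exact K.algebraMap_mem r
    · have : χ ⟨x + y, Subalgebra.add_mem _ hx hy⟩ = χ ⟨x, hx⟩ + χ ⟨y, hy⟩ := by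
        rw [← map_add]
        rfl
      rw [this]
      exact K.add_mem h h'
    · have : χ ⟨x * y, Subalgebra.mul_mem _ hx hy⟩ = χ ⟨x, hx⟩ * χ ⟨y, hy⟩ := by
        rw [← map_mul]
        rfl
      rw [this]
      exact K.mul_mem h h'
  let χ' : Algebra.adjoin ℚ S →+* K := χ.codRestrict K.toSubfield.toSubring h3
  have h5 : χ = (algebraMap K ℂ).comp χ' := RingHom.ext fun _ => rfl
  have h6 : push H k j χ' w = 0 := hb k j hk hj K _
  rw [h5, push_comp, h6, map_zero]

theorem exists_rings {S : Set ℂ} (σ : ℝ → (ℂ ≃+* ℂ)) (s : Finset ℝ) (hS : S.Finite) :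
    ∃ (Q : Set ℂ) (ψ : s → (Algebra.adjoin ℚ S →+* Algebra.adjoin ℚ Q)), Q.Finite ∧
      (∀ x ∈ s, ∀ c ∈ S, σ x c ∈ Q) ∧ ∀ (x : s) (c : Algebra.adjoin ℚ S), (ψ x c : ℂ) = σ x c := by
  let Q : Set ℂ := ⋃ x ∈ s, σ x '' S
  have hQ : Q.Finite := s.finite_toSet.biUnion fun x _ => hS.image _
  have hmem : ∀ x ∈ s, ∀ c ∈ S, σ x c ∈ Q := fun x hx c hc =>
    Set.mem_biUnion (s := (s : Set ℝ)) (t := fun x => σ x '' S) hx ⟨c, hc, rfl⟩
  have hadj : ∀ x ∈ s, ∀ c : Algebra.adjoin ℚ S, σ x c ∈ Algebra.adjoin ℚ Q := by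
    rintro x hx ⟨c, hc⟩
    refine Algebra.adjoin_induction (fun c hc => Algebra.subset_adjoin (hmem x hx c hc))
      (fun r => ?_) (fun _ _ _ _ h h' => ?_) (fun _ _ _ _ h h' => ?_) hc
    · have : σ x (algebraMap ℚ ℂ r) = algebraMap ℚ ℂ r := by simp
      rw [this]
      exact Subalgebra.algebraMap_mem _ r
    · rw [map_add]
      exact Subalgebra.add_mem _ h h'
    · rw [map_mul]
      exact Subalgebra.mul_mem _ h h'
  exact ⟨Q, fun x => ((σ x).toRingHom.comp (algebraMap (Algebra.adjoin ℚ S) ℂ)).codRestrict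
      (Algebra.adjoin ℚ Q).toSubring (hadj x x.2), hQ, hmem, fun _ _ => rfl⟩

/-- a class of a subring of a field which dies under an embedding in a field dies on the field of
fractions -/
theorem push_injective (hH : IsMotivicCohomology H) {k j : ℤ} {A F : Type} [CommRing A] [IsDomain A]
    [CharZero A] [Field F] {χ χ' : A →+* F} (hχ : Function.Injective χ)
    (hχ' : Function.Injective χ') {w : (H k j).obj (op (Sp A))} (h : push H k j χ w = 0) :
    push H k j χ' w = 0 := by
  have hAF : Function.Injective (algebraMap A (FractionRing A)) := IsFractionRing.injective A _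
  have hF : CharZero (FractionRing A) :=
    charZero_of_injective_ringHom (f := algebraMap A (FractionRing A)) hAF
  let c1 : FractionRing A →+* F := IsFractionRing.lift hχ
  let c2 : FractionRing A →+* F := IsFractionRing.lift hχ'
  have e1 : c1.comp (algebraMap A (FractionRing A)) = χ :=
    RingHom.ext fun x => IsFractionRing.lift_algebraMap hχ x
  have e2 : c2.comp (algebraMap A (FractionRing A)) = χ' :=
    RingHom.ext fun x => IsFractionRing.lift_algebraMap hχ' x
  have h1 : push H k j (algebraMap A (FractionRing A)) w = 0 := by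
    refine (injective_iff_map_eq_zero (push H k j c1)).1 (hH.inj k j c1) _ ?_
    rw [← push_comp, e1]
    exact h
  rw [← e2, push_comp, h1, map_zero]

theorem spreadsZero_set (h0 : SpreadsZero H) {k j : ℤ} {Q : Set ℂ} (hQ : Q.Finite)
    {w : (H k j).obj (op (Sp (Algebra.adjoin ℚ Q)))}
    (hw : push H k j (algebraMap (Algebra.adjoin ℚ Q) ℂ) w = 0) :
    ∃ (Q' : Set ℂ) (h : Q ⊆ Q'), Q'.Finite ∧
      push H k j (Subalgebra.inclusion (Algebra.adjoin_mono (R := ℚ) h)).toRingHom w = 0 := by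
  have hfg : (Algebra.adjoin ℚ Q).FG := Subalgebra.fg_def.2 ⟨Q, hQ, rfl⟩
  obtain ⟨B, _, _, α, β, hB, -, hαβ, hα⟩ := h0 k j ℂ (Algebra.adjoin ℚ Q) (algebraMap _ ℂ) w
    ((Subalgebra.fg_iff_finiteType _).1 hfg) (FaithfulSMul.algebraMap_injective _ _) hw
  change push H k j α w = 0 at hα
  obtain ⟨G, hG⟩ := hB.out
  let β' : B →ₐ[ℚ] ℂ := β.toRatAlgHom
  have hle : ∀ y : B, β y ∈ Algebra.adjoin ℚ (Q ∪ β '' (G : Set B)) := by
    intro y
    have h1 : β' y ∈ (Algebra.adjoin ℚ (G : Set B)).map β' := ⟨y, by rw [hG]; trivial, rfl⟩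
    rw [AlgHom.map_adjoin] at h1
    exact Algebra.adjoin_mono Set.subset_union_right h1
  refine ⟨Q ∪ β '' (G : Set B), Set.subset_union_left, hQ.union (G.finite_toSet.image _), ?_⟩
  let γ : B →+* Algebra.adjoin ℚ (Q ∪ β '' (G : Set B)) :=
    β.codRestrict (Algebra.adjoin ℚ (Q ∪ β '' (G : Set B))).toSubring hle
  have h2 : (Subalgebra.inclusion (Algebra.adjoin_mono (R := ℚ)
      (Set.subset_union_left : Q ⊆ Q ∪ β '' (G : Set B)))).toRingHom = γ.comp α := by
    refine RingHom.ext fun y => Subtype.ext ?_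
    exact (DFunLike.congr_fun hαβ y).symm
  rw [h2, push_comp, hα, map_zero]

theorem independent (hH : IsMotivicCohomology H) (hs : Spreads H) (h0 : SpreadsZero H)
    (hb : BorelVanishing H) {k j : ℤ} (hk : k ≤ 0) (hj : 0 < j) (z : (H k j).obj (op (Sp ℂ))) :
    ∃ σ : ℝ → (ℂ ≃+* ℂ), ∀ (s : Finset ℝ) (a : ℝ → ℤ),
      ∑ x ∈ s, a x • push H k j (σ x).toRingHom z = 0 → ∀ x ∈ s, a x • z = 0 := by
  classical
  obtain ⟨S, hS, w, hw⟩ := hs k j ℂ z
  change push H k j (algebraMap (Algebra.adjoin ℚ S) ℂ) w = z at hw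
  subst hw
  obtain ⟨σ, hσ⟩ := exists_family hS
  refine ⟨σ, fun s a hsum y hy => ?_⟩
  obtain ⟨Q, ψ, hQ, hmem, hψ⟩ := exists_rings σ s hS
  have hψ' : ∀ x : s, (algebraMap (Algebra.adjoin ℚ Q) ℂ).comp (ψ x) =
      (σ x).toRingHom.comp (algebraMap (Algebra.adjoin ℚ S) ℂ) := fun x => RingHom.ext (hψ x)
  have hW0 : push H k j (algebraMap (Algebra.adjoin ℚ Q) ℂ) (∑ x : s, a x • push H k j (ψ x) w) =
      0 := by
    rw [map_sum, ← hsum]
    refine Eq.trans ?_ (Finset.sum_coe_sort s (fun x => a x •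
      push H k j (σ x).toRingHom (push H k j (algebraMap (Algebra.adjoin ℚ S) ℂ) w)))
    refine Finset.sum_congr rfl fun x _ => ?_
    rw [map_zsmul, ← push_comp, hψ', push_comp]
  obtain ⟨Q', hQQ', hQ', hW⟩ := spreadsZero_set h0 hQ hW0
  obtain ⟨τ, h1, h2⟩ := hσ y Q' hQ'
  have hle : Algebra.adjoin ℚ Q ≤ Algebra.adjoin ℚ Q' := Algebra.adjoin_mono hQQ'
  change push H k j (Subalgebra.inclusion hle).toRingHom _ = 0 at hW
  have hsum' : ∑ x : s, a x •
      push H k j (τ.comp ((Subalgebra.inclusion hle).toRingHom.comp (ψ x))) w = 0 := by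
    have h3 := congrArg (push H k j τ) hW
    rw [map_zero, ← push_comp, map_sum] at h3
    rw [← h3]
    refine Finset.sum_congr rfl fun x _ => ?_
    rw [map_zsmul, ← push_comp, RingHom.comp_assoc]
  have hne : ∀ x : s, x ≠ ⟨y, hy⟩ →
      a x • push H k j (τ.comp ((Subalgebra.inclusion hle).toRingHom.comp (ψ x))) w = 0 := by
    intro x hx
    have hxy : (x : ℝ) ≠ y := fun h => hx (Subtype.ext h)
    rw [push_algebraic hb hk hj hS _ (fun c hc => ?_) w, smul_zero]
    have h3 := h1 x hxy c hc (hQQ' (hmem x x.2 c hc))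
    have h4 : (⟨σ x c, Algebra.subset_adjoin (hQQ' (hmem x x.2 c hc))⟩ : Algebra.adjoin ℚ Q') =
        Subalgebra.inclusion hle (ψ x ⟨c, Algebra.subset_adjoin hc⟩) := by
      apply Subtype.ext
      rw [Subalgebra.coe_inclusion, hψ]
    rw [h4] at h3
    exact h3
  rw [Finset.sum_eq_single_of_mem (⟨y, hy⟩ : s) (Finset.mem_univ _) (fun x _ hx => hne x hx)] at hsum'
  have hinj : Function.Injective
      (τ.comp ((Subalgebra.inclusion hle).toRingHom.comp (ψ ⟨y, hy⟩))) := by
    rw [injective_iff_map_eq_zero]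
    intro c hc
    have h5 : σ y c ∈ Algebra.adjoin ℚ Q' := by
      have := hψ ⟨y, hy⟩ c
      rw [← this]
      exact hle (ψ ⟨y, hy⟩ c).2
    refine Subtype.ext (h2 c c.2 h5 ?_)
    have h4 : (⟨σ y c, h5⟩ : Algebra.adjoin ℚ Q') = Subalgebra.inclusion hle (ψ ⟨y, hy⟩ c) := by
      apply Subtype.ext
      rw [Subalgebra.coe_inclusion, hψ]
    rw [h4]
    exact hc
  rw [← map_zsmul] at hsum'
  have h6 := push_injective hH hinj (FaithfulSMul.algebraMap_injective (Algebra.adjoin ℚ S) ℂ) hsum'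
  rw [map_zsmul] at h6
  exact h6

theorem zero_or_continuum (hH : IsMotivicCohomology H) (hs : Spreads H) (h0 : SpreadsZero H)
    (hb : BorelVanishing H) {k j : ℤ} (hk : k ≤ 0) (hj : 0 < j) :
    BS.Zero H k j (Sp ℂ) ∨ Cardinal.continuum ≤ Cardinal.mk ((H k j).obj (op (Sp ℂ))) := by
  classical
  by_cases h : BS.Zero H k j (Sp ℂ)
  · exact Or.inl h
  · right
    unfold BS.Zero at h
    push Not at h
    obtain ⟨z, hz⟩ := h
    obtain ⟨σ, hσ⟩ := independent hH hs h0 hb hk hj z
    rw [← Cardinal.mk_real]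
    refine Cardinal.mk_le_of_injective (f := fun x => push H k j (σ x).toRingHom z) ?_
    intro x y hxy
    by_contra hne
    have h1 := hσ {x, y} (fun t => if t = x then 1 else -1) (by
      rw [Finset.sum_pair hne]
      simp only [if_true, one_smul, if_neg (Ne.symm hne)]
      have : push H k j (σ x).toRingHom z = push H k j (σ y).toRingHom z := hxy
      rw [this, neg_smul, one_smul, add_neg_cancel]) x (by simp)
    simp only [if_true, one_smul] at h1
    exact hz h1

variable (H) in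
/-- the group `H^k(X, ℚ(j))` has less than continuum many elements -/
def Few (k j : ℤ) (X : Scheme.{0}) : Prop :=
  Cardinal.mk ((H k j).obj (op X)) < Cardinal.continuum

variable (H) in
/-- For every class `z` in `H^k(Spec ℂ, ℚ(j))` there are automorphisms `σ x` of `ℂ`, `x ∈ ℝ`, such that
`∑ x ∈ s, a x • σ x z = 0`, `s` finite, `a x` integers, is only true if `a x • z = 0` for all `x ∈ s`. -/
def ManyTranslates (k j : ℤ) : Prop :=
  ∀ z : (H k j).obj (op (Sp ℂ)), ∃ σ : ℝ → (ℂ ≃+* ℂ), ∀ (s : Finset ℝ) (a : ℝ → ℤ),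
    ∑ x ∈ s, a x • push H k j (σ x).toRingHom z = 0 → ∀ x ∈ s, a x • z = 0

variable (H) in
/-- all groups `H^k(X, ℚ(j))`, `k < 0`, `j ≤ J`, `X` smooth and projective, have less than continuum
many elements -/
def FewProjective (J : ℤ) : Prop :=
  ∀ X : Over (Sp ℂ), SmoothProjective X → ∀ k j : ℤ, k < 0 → j ≤ J → Few H k j X.left

theorem few_of_zero {k j : ℤ} {X : Scheme.{0}} (h : BS.Zero H k j X) : Few H k j X := by
  have : Subsingleton ((H k j).obj (op X)) := ⟨fun a b => by rw [h a, h b]⟩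
  exact (Cardinal.le_one_iff_subsingleton.2 this).trans_lt
    (Cardinal.one_lt_aleph0.trans Cardinal.aleph0_lt_continuum)

theorem zero_of_few (hH : IsMotivicCohomology H) (hs : Spreads H) (h0 : SpreadsZero H)
    (hb : BorelVanishing H) {k j : ℤ} (hk : k < 0) (h : Few H k j (Sp ℂ)) :
    BS.Zero H k j (Sp ℂ) := by
  rcases lt_or_ge j 0 with h1 | h1
  · exact hH.negative k j ℂ h1
  rcases h1.eq_or_lt with rfl | h1
  · exact (hH.low k ℂ hk).1
  · rcases zero_or_continuum hH hs h0 hb hk.le h1 with h2 | h2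
    · exact h2
    · exact absurd h2 (not_le.2 h)

theorem few_each (hH : IsMotivicCohomology H) (hs : Spreads H) (h0 : SpreadsZero H)
    (hb : BorelVanishing H) (J : ℤ) : List.TFAE [
      BSProjective H J,
      FewProjective H J,
      ∀ k j : ℤ, k < 0 → j ≤ J → Few H k j (Sp ℂ)] := by
  tfae_have 1 → 2 := fun h X hX k j hk hj => few_of_zero (h X hX k j hk hj)
  tfae_have 2 → 3 := fun h k j hk hj => h _ (point_smoothProjective ℂ) k j hk hj
  tfae_have 3 → 1 := fun h => ((main hH J).out 1 0 rfl rfl).1 fun k j hk hj =>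
    zero_of_few hH hs h0 hb hk (h k j hk hj)
  tfae_finish

theorem few_one (hH : IsMotivicCohomology H) (hs : Spreads H) (h0 : SpreadsZero H)
    (hb : BorelVanishing H) :
    (∀ J : ℤ, BSProjective H J) ↔ ∀ j : ℤ, 2 ≤ j → Few H (-1) j (Sp ℂ) := by
  constructor
  · intro h j hj
    exact few_of_zero (((L5helper66.BS.one_degree hH).out 0 2 rfl rfl).1 h j hj)
  · intro h
    exact ((L5helper66.BS.one_degree hH).out 2 0 rfl rfl).1 fun j hj =>
      zero_of_few hH hs h0 hb (by norm_num) (h j hj)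

end Pool.Agent.L5helper73.ZO
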