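import Pool.Agent.L5helper73.ZO.Spec

/-!
# Specialization of finitely generated subrings of algebraically closed fields
-/

set_option autoImplicit false
set_option linter.unusedSimpArgs false

namespace Pool.Agent.L5helper73.ZO

open Polynomial

variable {Ω : Type*} [Field Ω] [CharZero Ω] {ι : Type*}

theorem exists_poly {b : ι → Ω} (hb : IsTranscendenceBasis ℚ b) (J : Set ι) (q : Ω) :
    ∃ P : (Bs b Set.univ)[X], P ≠ 0 ∧ eval₂ (Bs b Set.univ).val.toRingHom q P = 0 ∧
      (IsAlgebraic (Bs b J) q → ∃ P' : (Bs b J)[X],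
        P = P'.map (Subalgebra.inclusion (Bs_mono (Set.subset_univ J))).toRingHom) := by
  by_cases h : IsAlgebraic (Bs b J) q
  · obtain ⟨P, hP, h0⟩ := h
    refine ⟨P.map (Subalgebra.inclusion (Bs_mono (Set.subset_univ J))).toRingHom, ?_, ?_,
      fun _ => ⟨P, rfl⟩⟩
    · rw [Ne, Polynomial.map_eq_zero_iff (Subalgebra.inclusion_injective _)]
      exact hP
    · rw [Polynomial.eval₂_map]
      exact h0
  · have h1 : Algebra.IsAlgebraic (Bs b Set.univ) Ω := by
      rw [Bs, Set.image_univ]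
      exact hb.isAlgebraic
    obtain ⟨P, hP, h0⟩ := h1.isAlgebraic q
    exact ⟨P, hP, h0, fun h' => absurd h' h⟩

theorem exists_spec [IsAlgClosed Ω] {b : ι → Ω} (hb : IsTranscendenceBasis ℚ b) (I : Set ι)
    {Q : Set Ω} (hQ : Q.Finite) :
    ∃ τ : Algebra.adjoin ℚ Q →+* Ω,
      (∀ (q : Ω) (hq : q ∈ Q), IsAlgebraic (Bs b Iᶜ) q →
        IsAlgebraic ℚ (τ ⟨q, Algebra.subset_adjoin hq⟩)) ∧
      (∀ a : Algebra.adjoin ℚ Q, IsAlgebraic (Bs b I) (a : Ω) → τ a = 0 → a = 0) := by
  classical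
  choose P hP0 hPq hPI using exists_poly hb Iᶜ
  let u : Bs b Set.univ := ∏ q ∈ hQ.toFinset, (P q).leadingCoeff
  have hu : u ≠ 0 := Finset.prod_ne_zero_iff.2 fun q _ => leadingCoeff_ne_zero.2 (hP0 q)
  obtain ⟨p, hp, -⟩ := mem_Bs u.2
  have hp0 : p ≠ 0 := by
    rintro rfl
    rw [map_zero] at hp
    exact hu (Subtype.ext hp.symm)
  obtain ⟨c, hcI, hcr, hcp⟩ := exists_values hb.1 I p hp0
  obtain ⟨φ, hφ⟩ := exists_subst hb.1 c
  have hφu : φ u ≠ 0 := by
    rw [hφ p u hp.symm]
    exact hcp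
  have hlead : ∀ q ∈ Q, φ (P q).leadingCoeff ≠ 0 := by
    intro q hq h0
    refine hφu ?_
    rw [map_prod]
    exact Finset.prod_eq_zero (hQ.mem_toFinset.2 hq) h0
  have hker : (RingHom.ker φ.toRingHom).IsPrime := RingHom.ker_isPrime _
  let M : Submonoid (Bs b Set.univ) := (RingHom.ker φ.toRingHom).primeCompl
  have hM : ∀ y : Bs b Set.univ, y ∈ M ↔ φ y ≠ 0 := fun y => Iff.rfl
  have hM0 : M ≤ nonZeroDivisors (Bs b Set.univ) := by
    intro y hy
    rw [mem_nonZeroDivisors_iff_ne_zero]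
    rintro rfl
    exact (hM 0).1 hy (map_zero _)
  let L := Localization M
  have hinjL : Function.Injective (algebraMap (Bs b Set.univ) L) := IsLocalization.injective L hM0
  let f1 : L →+* Ω := IsLocalization.lift (M := M) (g := (Bs b Set.univ).val.toRingHom) (by
    intro y
    refine isUnit_iff_ne_zero.2 fun h0 => ?_
    have : (y : Bs b Set.univ) = 0 := Subtype.ext h0
    exact (hM y).1 y.2 (by rw [this, map_zero]))
  let f2 : L →+* Ω := IsLocalization.lift (M := M) (g := φ.toRingHom) (by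
    intro y
    exact isUnit_iff_ne_zero.2 ((hM y).1 y.2))
  have hf1 : ∀ y, f1 (algebraMap (Bs b Set.univ) L y) = y := fun y => IsLocalization.lift_eq _ y
  have hf2 : ∀ y, f2 (algebraMap (Bs b Set.univ) L y) = φ y := fun y => IsLocalization.lift_eq _ y
  have hf1i : Function.Injective f1 := by
    refine (IsLocalization.lift_injective_iff _).2 fun x y => ?_
    rw [hinjL.eq_iff]
    exact Subtype.ext_iff
  let _ : Algebra L Ω := f1.toAlgebra
  let C : Subalgebra L Ω := integralClosure L Ω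
  have hCQ : ∀ q ∈ Q, q ∈ C := by
    intro q hq
    have h1 : IsUnit (algebraMap (Bs b Set.univ) L (P q).leadingCoeff) :=
      IsLocalization.map_units L (⟨_, (hM _).2 (hlead q hq)⟩ : M)
    obtain ⟨v, hv⟩ := h1
    have h2 : ((P q).map (algebraMap (Bs b Set.univ) L)).leadingCoeff = v := by
      rw [hv]
      exact Polynomial.leadingCoeff_map_of_leadingCoeff_ne_zero _ (by rw [← hv]; exact v.ne_zero)
    refine ⟨Polynomial.C (↑v⁻¹ : L) * (P q).map (algebraMap (Bs b Set.univ) L),
      Polynomial.monic_C_mul_of_mul_leadingCoeff_eq_one (by rw [h2]; exact v.inv_mul), ?_⟩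
    rw [Polynomial.eval₂_mul, Polynomial.eval₂_map]
    have h3 : (algebraMap L Ω).comp (algebraMap (Bs b Set.univ) L) =
        (Bs b Set.univ).val.toRingHom := RingHom.ext hf1
    rw [h3, hPq, mul_zero]
  have hmem : ∀ a ∈ Algebra.adjoin ℚ Q, a ∈ C := by
    intro a ha
    refine Algebra.adjoin_induction hCQ (fun r => ?_) (fun x y _ _ hx hy => C.add_mem hx hy)
      (fun x y _ _ hx hy => C.mul_mem hx hy) ha
    have := C.algebraMap_mem (algebraMap (Bs b Set.univ) L (algebraMap ℚ _ r))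
    rw [show algebraMap L Ω (algebraMap (Bs b Set.univ) L (algebraMap ℚ _ r)) =
      algebraMap ℚ Ω r from hf1 _] at this
    exact this
  have hinjC : Function.Injective (algebraMap L C) := by
    intro x y hxy
    exact hf1i (congrArg Subtype.val hxy)
  obtain ⟨τ0, hτ0⟩ := exists_extend (L := L) (C := C) hinjC f2
  let j : Algebra.adjoin ℚ Q →+* C :=
    { toFun := fun a => ⟨a, hmem a a.2⟩
      map_one' := rfl
      map_mul' := fun _ _ => rfl
      map_zero' := rfl
      map_add' := fun _ _ => rfl }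
  have key : ∀ (R : (Bs b Set.univ)[X]) (a : Algebra.adjoin ℚ Q),
      eval₂ (Bs b Set.univ).val.toRingHom (a : Ω) R = 0 → eval₂ φ.toRingHom (τ0 (j a)) R = 0 := by
    intro R a h
    have h1 : eval₂ ((algebraMap L C).comp (algebraMap (Bs b Set.univ) L)) (j a) R = 0 := by
      apply Subtype.ext
      change C.val.toRingHom _ = 0
      rw [Polynomial.hom_eval₂]
      have h3 : C.val.toRingHom.comp ((algebraMap L C).comp (algebraMap (Bs b Set.univ) L)) =
          (Bs b Set.univ).val.toRingHom := RingHom.ext hf1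
      rw [h3]
      exact h
    have h2 := congrArg τ0 h1
    rw [Polynomial.hom_eval₂, map_zero] at h2
    have h4 : τ0.comp ((algebraMap L C).comp (algebraMap (Bs b Set.univ) L)) = φ.toRingHom := by
      refine RingHom.ext fun y => ?_
      rw [RingHom.comp_apply, RingHom.comp_apply, hτ0, hf2]
      rfl
    rw [h4] at h2
    exact h2
  refine ⟨τ0.comp j, fun q hq hqI => ?_, fun a ha h0 => ?_⟩
  · obtain ⟨P', hP'⟩ := hPI q hqI
    have h1 := key (P q) ⟨q, Algebra.subset_adjoin hq⟩ (hPq q)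
    have h5 : ∀ y : Bs b Iᶜ, ∃ r : ℚ,
        φ (Subalgebra.inclusion (Bs_mono (Set.subset_univ Iᶜ)) y) = algebraMap ℚ Ω r :=
      subst_rat (fun i hi => hcr i hi) hφ
    let ψ : Bs b Iᶜ →ₐ[ℚ] (⊥ : Subalgebra ℚ Ω) :=
      (φ.comp (Subalgebra.inclusion (Bs_mono (Set.subset_univ Iᶜ)))).codRestrict ⊥ (fun y => by
        obtain ⟨r, hr⟩ := h5 y
        exact ⟨r, hr.symm⟩)
    have h6 : IsAlgebraic (⊥ : Subalgebra ℚ Ω) (τ0 (j ⟨q, Algebra.subset_adjoin hq⟩)) := by
      refine ⟨P'.map ψ.toRingHom, ?_, ?_⟩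
      · intro h7
        have h8 : (P'.map ψ.toRingHom).coeff P'.natDegree = 0 := by rw [h7, coeff_zero]
        rw [coeff_map] at h8
        have h9 : φ (Subalgebra.inclusion (Bs_mono (Set.subset_univ Iᶜ)) P'.leadingCoeff) = 0 :=
          congrArg Subtype.val h8
        refine hlead q hq ?_
        rw [hP', Polynomial.leadingCoeff_map_of_injective (Subalgebra.inclusion_injective _)]
        exact h9
      · rw [aeval_def, Polynomial.eval₂_map]
        rw [hP', Polynomial.eval₂_map] at h1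
        exact h1
    obtain ⟨R, hR, hR0⟩ := h6
    let e := (Algebra.botEquiv ℚ Ω)
    refine ⟨R.map e.toRingHom, ?_, ?_⟩
    · rw [Ne, Polynomial.map_eq_zero_iff e.injective]
      exact hR
    · rw [aeval_def, Polynomial.eval₂_map]
      have h11 : (algebraMap ℚ Ω).comp e.toRingHom = (algebraMap (⊥ : Subalgebra ℚ Ω) Ω) := by
        refine RingHom.ext fun y => ?_
        obtain ⟨r, rfl⟩ := e.symm.surjective y
        change algebraMap ℚ Ω (e (e.symm r)) = _
        rw [e.apply_symm_apply]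
        rfl
      rw [h11]
      exact hR0
  · by_contra hne
    have hne' : (a : Ω) ∈ nonZeroDivisors Ω :=
      mem_nonZeroDivisors_iff_ne_zero.2 fun h => hne (Subtype.ext h)
    obtain ⟨R, hR0, hR⟩ := ha.exists_nonzero_coeff_and_aeval_eq_zero hne'
    have h1 := key (R.map (Subalgebra.inclusion (Bs_mono (Set.subset_univ I))).toRingHom) a (by
      rw [Polynomial.eval₂_map]
      exact hR)
    rw [Polynomial.eval₂_map] at h1
    have h2 : τ0 (j a) = 0 := h0
    rw [h2, Polynomial.eval₂_at_zero] at h1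
    have h3 := subst_eq (J := I) (fun i hi => hcI i hi) hφ (R.coeff 0)
    have h4 : ((R.coeff 0 : Bs b I) : Ω) = 0 := by
      rw [← h3]
      exact h1
    exact hR0 (Subtype.ext h4)

end Pool.Agent.L5helper73.ZO
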