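import Mathlib

/-!
# Specialization of finitely generated subrings of algebraically closed fields
-/

set_option autoImplicit false
set_option linter.unusedSimpArgs false

namespace Pool.Agent.L5helper73.ZO

open Polynomial

/-- a homomorphism to an algebraically closed field extends to an integral extension -/
theorem exists_extend {L C Ω : Type*} [CommRing L] [CommRing C] [Algebra L C]
    [Algebra.IsIntegral L C] (hinj : Function.Injective (algebraMap L C)) [Field Ω] [IsAlgClosed Ω]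
    (f : L →+* Ω) : ∃ τ : C →+* Ω, ∀ x, τ (algebraMap L C x) = f x := by
  have hP : (RingHom.ker f).IsPrime := RingHom.ker_isPrime f
  obtain ⟨Q, -, hQ, hQP⟩ := Ideal.exists_ideal_over_prime_of_isIntegral (RingHom.ker f)
    (⊥ : Ideal C) (by
      intro x hx
      rw [Ideal.mem_comap, Ideal.mem_bot] at hx
      have : x = 0 := hinj (by rw [hx, map_zero])
      rw [this]
      exact Ideal.zero_mem _)
  let P := RingHom.ker f
  let g : L ⧸ P →+* C ⧸ Q := Ideal.quotientMap Q (algebraMap L C) hQP.ge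
  have hg : Function.Injective g := Ideal.quotientMap_injective' hQP.le
  let h : L ⧸ P →+* Ω := Ideal.Quotient.lift P f (fun a ha => ha)
  have hh : Function.Injective h := RingHom.lift_injective_of_ker_le_ideal P _ le_rfl
  let : Algebra (L ⧸ P) (C ⧸ Q) := g.toAlgebra
  let : Algebra (L ⧸ P) Ω := h.toAlgebra
  have i1 : Algebra.IsIntegral (L ⧸ P) (C ⧸ Q) := by
    refine ⟨fun y => ?_⟩
    obtain ⟨c, rfl⟩ := Ideal.Quotient.mk_surjective y
    obtain ⟨p, hp, hc⟩ := Algebra.IsIntegral.isIntegral (R := L) c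
    refine ⟨p.map (Ideal.Quotient.mk P), hp.map _, ?_⟩
    rw [Polynomial.eval₂_map]
    have : (algebraMap (L ⧸ P) (C ⧸ Q)).comp (Ideal.Quotient.mk P) =
        (Ideal.Quotient.mk Q).comp (algebraMap L C) := by
      ext x
      rfl
    rw [this, ← Polynomial.hom_eval₂, hc, map_zero]
  have i2 : IsDomain (C ⧸ Q) := Ideal.Quotient.isDomain Q
  have i3 : FaithfulSMul (L ⧸ P) (C ⧸ Q) := (faithfulSMul_iff_algebraMap_injective _ _).2 hg
  have i4 : FaithfulSMul (L ⧸ P) Ω := (faithfulSMul_iff_algebraMap_injective _ _).2 hh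
  have i5 : IsDomain (L ⧸ P) := Ideal.Quotient.isDomain P
  have i6 : Algebra.IsAlgebraic (L ⧸ P) (C ⧸ Q) := inferInstance
  let τ : C ⧸ Q →ₐ[L ⧸ P] Ω := IsAlgClosed.lift
  refine ⟨τ.toRingHom.comp (Ideal.Quotient.mk Q), fun x => ?_⟩
  have : τ (algebraMap (L ⧸ P) (C ⧸ Q) (Ideal.Quotient.mk P x)) =
      algebraMap (L ⧸ P) Ω (Ideal.Quotient.mk P x) := τ.commutes _
  exact this

variable {Ω : Type*} [Field Ω] [CharZero Ω] {ι : Type*}

/-- there are rational values of the variables outside `I` at which a given polynomial in the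
transcendence basis does not vanish -/
theorem exists_values {b : ι → Ω} (hb : AlgebraicIndependent ℚ b) (I : Set ι)
    (p : MvPolynomial ι ℚ) (hp : p ≠ 0) : ∃ c : ι → Ω, (∀ i ∈ I, c i = b i) ∧
      (∀ i ∉ I, ∃ r : ℚ, c i = algebraMap ℚ Ω r) ∧ MvPolynomial.aeval c p ≠ 0 := by
  classical
  let p' : MvPolynomial ι Ω :=
    MvPolynomial.aeval (fun i => if i ∈ I then MvPolynomial.C (b i) else MvPolynomial.X i) p
  have h1 : ∀ c : ι → Ω, MvPolynomial.eval c p' =
      MvPolynomial.aeval (fun i => if i ∈ I then b i else c i) p := by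
    intro c
    have : ((MvPolynomial.aeval c : MvPolynomial ι Ω →ₐ[Ω] Ω).restrictScalars ℚ).comp
        (MvPolynomial.aeval (fun i => if i ∈ I then MvPolynomial.C (b i) else MvPolynomial.X i) :
          MvPolynomial ι ℚ →ₐ[ℚ] MvPolynomial ι Ω) =
        MvPolynomial.aeval (fun i => if i ∈ I then b i else c i) := by
      refine MvPolynomial.algHom_ext fun i => ?_
      rw [AlgHom.comp_apply, MvPolynomial.aeval_X, MvPolynomial.aeval_X]
      by_cases hi : i ∈ I
      · simp [hi]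
      · simp [hi]
    have h2 := DFunLike.congr_fun this p
    rw [← h2]
    rfl
  have h3 : p' ≠ 0 := by
    intro h0
    have h4 := h1 b
    rw [h0, map_zero] at h4
    have h5 : (fun i => if i ∈ I then b i else b i) = b := by
      funext i
      simp
    rw [h5] at h4
    exact hp ((injective_iff_map_eq_zero _).1 hb p h4.symm)
  have h6 : ∃ c ∈ Set.pi Set.univ (fun _ : ι => Set.range (algebraMap ℚ Ω)),
      MvPolynomial.eval c p' ≠ 0 := by
    by_contra hcon
    push Not at hcon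
    refine h3 (MvPolynomial.funext_set (fun _ : ι => Set.range (algebraMap ℚ Ω))
      (fun i => Set.infinite_range_of_injective (algebraMap ℚ Ω).injective) fun x hx => ?_)
    rw [hcon x hx, map_zero]
  obtain ⟨c, hc, hne⟩ := h6
  refine ⟨fun i => if i ∈ I then b i else c i, fun i hi => by simp [hi], fun i hi => ?_, ?_⟩
  · obtain ⟨r, hr⟩ := hc i (Set.mem_univ i)
    exact ⟨r, by simp [hi, hr]⟩
  · rw [← h1]
    exact hne

/-- the subring generated by the `b i`, `i ∈ J` -/
abbrev Bs (b : ι → Ω) (J : Set ι) : Subalgebra ℚ Ω := Algebra.adjoin ℚ (b '' J)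

theorem Bs_mono {b : ι → Ω} {J J' : Set ι} (h : J ⊆ J') : Bs b J ≤ Bs b J' :=
  Algebra.adjoin_mono (Set.image_mono h)

/-- the homomorphism which replaces the `b i` by `c i` -/
theorem exists_subst {b : ι → Ω} (hb : AlgebraicIndependent ℚ b) (c : ι → Ω) :
    ∃ φ : Bs b Set.univ →ₐ[ℚ] Ω, ∀ (p : MvPolynomial ι ℚ) (y : Bs b Set.univ),
      (y : Ω) = MvPolynomial.aeval b p → φ y = MvPolynomial.aeval c p := by
  have e : Bs b Set.univ = Algebra.adjoin ℚ (Set.range b) := by
    rw [Bs, Set.image_univ]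
  rw [e]
  refine ⟨(MvPolynomial.aeval c).comp hb.aevalEquiv.symm.toAlgHom, fun p y h => ?_⟩
  have h1 : y = hb.aevalEquiv p := by
    apply Subtype.ext
    rw [hb.aevalEquiv_apply_coe]
    exact h
  rw [h1]
  change MvPolynomial.aeval c (hb.aevalEquiv.symm (hb.aevalEquiv p)) = _
  rw [AlgEquiv.symm_apply_apply]

theorem mem_Bs {b : ι → Ω} {y : Ω} {J : Set ι} (hy : y ∈ Bs b J) :
    ∃ p : MvPolynomial ι ℚ, MvPolynomial.aeval b p = y ∧ ↑p.vars ⊆ J := by
  classical
  refine Algebra.adjoin_induction (fun x hx => ?_) (fun r => ?_) (fun x x' _ _ h h' => ?_)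
    (fun x x' _ _ h h' => ?_) hy
  · obtain ⟨i, hi, rfl⟩ := hx
    refine ⟨MvPolynomial.X i, by simp, ?_⟩
    rw [MvPolynomial.vars_X]
    simpa using hi
  · exact ⟨MvPolynomial.C r, by simp, by simp⟩
  · obtain ⟨p, hp, hv⟩ := h
    obtain ⟨q, hq, hv'⟩ := h'
    refine ⟨p + q, by rw [map_add, hp, hq], ?_⟩
    refine (Finset.coe_subset.2 (MvPolynomial.vars_add_subset p q)).trans ?_
    rw [Finset.coe_union]
    exact Set.union_subset hv hv'
  · obtain ⟨p, hp, hv⟩ := h
    obtain ⟨q, hq, hv'⟩ := h'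
    refine ⟨p * q, by rw [map_mul, hp, hq], ?_⟩
    refine (Finset.coe_subset.2 (MvPolynomial.vars_mul p q)).trans ?_
    rw [Finset.coe_union]
    exact Set.union_subset hv hv'

theorem aeval_mem_Bs (b : ι → Ω) {p : MvPolynomial ι ℚ} {J : Set ι} (h : ↑p.vars ⊆ J) :
    MvPolynomial.aeval b p ∈ Bs b J := by
  classical
  have h1 : p ∈ MvPolynomial.supported ℚ J := MvPolynomial.mem_supported.2 h
  have h2 : (MvPolynomial.supported ℚ J).map (MvPolynomial.aeval b) = Bs b J := by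
    rw [MvPolynomial.supported, AlgHom.map_adjoin, ← Set.image_comp]
    congr 1
    refine Set.image_congr' fun i => ?_
    simp
  rw [← h2]
  exact ⟨p, h1, rfl⟩

theorem subst_eq {b c : ι → Ω} {J : Set ι} (hJ : ∀ i ∈ J, c i = b i) {φ : Bs b Set.univ →ₐ[ℚ] Ω}
    (hφ : ∀ (p : MvPolynomial ι ℚ) (y : Bs b Set.univ),
      (y : Ω) = MvPolynomial.aeval b p → φ y = MvPolynomial.aeval c p) (y : Bs b J) :
    φ (Subalgebra.inclusion (Bs_mono (Set.subset_univ J)) y) = y := by
  obtain ⟨p, hp, hv⟩ := mem_Bs y.2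
  rw [hφ p _ ((Subalgebra.coe_inclusion (h := Bs_mono (Set.subset_univ J)) y).trans hp.symm), ← hp]
  rw [MvPolynomial.aeval_def, MvPolynomial.aeval_def]
  refine MvPolynomial.eval₂_congr _ _ _ (fun {i d} hi hd => hJ i (hv (Finset.mem_coe.2 ?_)))
  exact (MvPolynomial.mem_vars_iff_mem_support i).2 ⟨d, MvPolynomial.mem_support_iff.2 hd, hi⟩

theorem subst_rat {b c : ι → Ω} {J : Set ι} (hJ : ∀ i ∈ J, ∃ r : ℚ, c i = algebraMap ℚ Ω r)
    {φ : Bs b Set.univ →ₐ[ℚ] Ω}
    (hφ : ∀ (p : MvPolynomial ι ℚ) (y : Bs b Set.univ),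
      (y : Ω) = MvPolynomial.aeval b p → φ y = MvPolynomial.aeval c p) (y : Bs b J) :
    ∃ r : ℚ, φ (Subalgebra.inclusion (Bs_mono (Set.subset_univ J)) y) = algebraMap ℚ Ω r := by
  obtain ⟨p, hp, hv⟩ := mem_Bs y.2
  rw [hφ p _ ((Subalgebra.coe_inclusion (h := Bs_mono (Set.subset_univ J)) y).trans hp.symm)]
  have h1 := aeval_mem_Bs c hv
  refine Algebra.adjoin_induction (p := fun y _ => ∃ r : ℚ, y = algebraMap ℚ Ω r)
    (fun x hx => ?_) (fun r => ⟨r, rfl⟩) ?_ ?_ h1
  · obtain ⟨i, hi, rfl⟩ := hx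
    exact hJ i hi
  · rintro x x' - - ⟨r, rfl⟩ ⟨r', rfl⟩
    exact ⟨r + r', by rw [map_add]⟩
  · rintro x x' - - ⟨r, rfl⟩ ⟨r', rfl⟩
    exact ⟨r * r', by rw [map_mul]⟩

end Pool.Agent.L5helper73.ZO
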